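import Mathlib
import Pool.Agent.K3h84.GD.Root
import Pool.Agent.K3h84.GD.Final
import Pool.Agent.K3h84.GD.Naspect
import Pool.Agent.K3h23.GD.AsyLarge
import Pool.Agent.K3h3.GD.Unr
import Pool.Agent.K3h35.GD.Trans
import Pool.Agent.K3h40.GD.Fin
import Pool.Agent.K3h40.GD.Num
import Pool.Agent.K3h40.GD.Wd
import Pool.Agent.K3h72.GD.Conj
import Pool.Agent.K3h72.GD.Const
import Pool.Agent.K3h77.GD.HolProd
import Pool.Agent.K3h77.GD.Lim1
import Pool.Agent.K3h77.GD.Lim2
import Pool.Agent.K3h87.GD.Ext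

/-!
# The bound for the Faltings height grows at least like `(1/2) g log g` with the dimension `g`

Let `S = Spec ℤ[1 / N]` with `N` even. A factor over `S` is an elliptic curve `E` over a number field
`L` such that `L` is unramified and `E` has good reduction outside `N`; then the Weil restriction
`Res_{L/ℚ} E` extends to an abelian scheme over `S` of relative dimension `[L : ℚ]` with stable
Faltings height `[L : ℚ] h_F(E)`, and the products of these Weil restrictions are abelian schemes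
over `S`.

Let `E₀ : y² = x (x - 1) (x - l)` be an elliptic curve over `ℚ` with good reduction outside `N`
(there is one for every even `N`, for example `l = -1`). We show that for EVERY dimension `g` there
is a product `A` of dimension `g` of Weil restrictions as above with
`h_F(A) ≥ g h_F(E₀) + (1/2) g log g - C g`, where `C` is an absolute constant. So for fixed `S` the
number `c(S, g)` of the conjecture cannot be bounded by a multiple of `g`. Taking `l = 2 ^ m` we
obtain infinitely many `S` for which, for all `g`, there is an `A` with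
`h_F(A) ≥ (1/2 - δ) g log N_S + (1/2) g log g - C_δ g`.

Idea. Start from `E₀` and divide again and again by points of order two. If `E : y² = x (x-1) (x-t)`
and `s² = t`, the quotient by `(0, 0)` is isomorphic to the curve with parameter
`t' = 4 s / (1 + s)²` (the arithmetic-geometric mean), and all these numbers and their differences
from `1` remain units outside `N`, so that the fields are unramified and the curves have good
reduction outside `N`. The sum of `12 h_F` over the three quotients of a curve by its subgroups of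
order two is at least three times that of the curve plus `6 log 2`. Going up the tower without turning
back and always choosing the better quotient one gets, over a field of degree at most `2 ^ k`,
a curve with `h_F ≥ h_F(E₀) + (k / 2) log 2 - (2 / 3) log 2`.
-/

set_option autoImplicit false

namespace Pool.Agent.Results.MP_07b2d0_nt.GrowthInTheDimension

open NumberField IsDedekindDomain

/-- the modular invariant `j(τ) = E₄(τ) ^ 3 / Δ(τ) = 1 / q + 744 + ⋯` -/
noncomputable def jInv (τ : UpperHalfPlane) : ℂ :=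
  ModularForm.E₄ τ ^ 3 / ModularForm.discriminant τ

/-- the archimedean term `- log (|Δ(τ)| (Im τ) ^ 6)` of the Faltings height -/
noncomputable def arch (τ : UpperHalfPlane) : ℝ :=
  -Real.log (‖ModularForm.discriminant τ‖ * τ.im ^ 6)

/-- the points `τ w` have modular invariant `j` -/
def IsPeriod {M : Type} [Field M] [NumberField M] (j : M)
    (τ : InfinitePlace M → UpperHalfPlane) : Prop := ∀ w, jInv (τ w) = w.embedding j

/-- Silverman's formula for the stable Faltings height (up to an additive constant which depends on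
the normalisation of the metric only) of an elliptic curve with modular invariant `j ∈ M`, where
`τ w` is a point of the upper half plane with modular invariant `j` at the infinite place `w`:
`12 [M : ℚ] h_F = ∑_v log max(|j|_v, 1) + ∑_w [M_w : ℝ] arch (τ w)`. -/
noncomputable def faltings {M : Type} [Field M] [NumberField M] (j : M)
    (τ : InfinitePlace M → UpperHalfPlane) : ℝ :=
  (∑ᶠ v : HeightOneSpectrum (𝓞 M), Real.log (max (FinitePlace.mk v j) 1) +
    ∑ w : InfinitePlace M, (w.mult : ℝ) * arch (τ w)) / (12 * Module.finrank ℚ M)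

/-- good reduction at `v`: some Weierstrass equation over `M` of the curve is integral at `v` and
has a discriminant which is a unit at `v` -/
def GoodAt {M : Type} [Field M] [NumberField M] (v : HeightOneSpectrum (𝓞 M))
    (E : WeierstrassCurve M) : Prop :=
  ∃ C : WeierstrassCurve.VariableChange M,
    v.valuation M (C • E).a₁ ≤ 1 ∧ v.valuation M (C • E).a₂ ≤ 1 ∧ v.valuation M (C • E).a₃ ≤ 1 ∧
    v.valuation M (C • E).a₄ ≤ 1 ∧ v.valuation M (C • E).a₆ ≤ 1 ∧ v.valuation M (C • E).Δ = 1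

/-- an elliptic curve `E` over a number field `L`, where `L` is unramified outside `N` and `E` has
good reduction outside `N`; the Weil restriction `Res_{L/ℚ} E` extends to an abelian scheme over
`ℤ[1 / N]` -/
structure Factor (N : ℕ) where
  /-- the field -/
  L : Type
  /-- it is a field -/
  field : Field L
  /-- it is a number field -/
  numberField : NumberField L
  /-- the curve -/
  E : WeierstrassCurve L
  disc : E.Δ ≠ 0
  unramified : ∀ p : ℕ, p.Prime → ¬ p ∣ N → ¬ (p : ℤ) ∣ discr L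
  good : ∀ v : HeightOneSpectrum (𝓞 L), (N : 𝓞 L) ∉ v.asIdeal → GoodAt v E

attribute [instance] Factor.field Factor.numberField

/-- the dimension `[L : ℚ]` of `Res_{L/ℚ} E` -/
noncomputable def Factor.dim {N : ℕ} (F : Factor N) : ℕ := Module.finrank ℚ F.L

/-- `x` is the stable Faltings height `[L : ℚ] h_F(E)` of `Res_{L/ℚ} E` -/
def Factor.IsHeight {N : ℕ} (F : Factor N) (x : ℝ) : Prop :=
  ∃ τ : InfinitePlace F.L → UpperHalfPlane, IsPeriod (F.E.c₄ ^ 3 / F.E.Δ) τ ∧
    x = F.dim * faltings (F.E.c₄ ^ 3 / F.E.Δ) τ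

/-- the elliptic curve `y² = x (x - 1) (x - l)` over `ℚ` -/
def legendre (l : ℚ) : WeierstrassCurve ℚ := ⟨0, -(1 + l), 0, l, 0⟩

/-- `x` is the stable Faltings height of `y² = x (x - 1) (x - l)` -/
def IsHeightLegendre (l : ℚ) (x : ℝ) : Prop :=
  ∃ τ : InfinitePlace ℚ → UpperHalfPlane, IsPeriod ((legendre l).c₄ ^ 3 / (legendre l).Δ) τ ∧
    x = faltings ((legendre l).c₄ ^ 3 / (legendre l).Δ) τ

section Aux

open Pool.Agent.K3h84.GD

theorem hRoot : S_ROOT := root Pool.Agent.K3h72.GD.Const.main Pool.Agent.K3h35.GD.Trans.main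
  Pool.Agent.K3h77.GD.HolProd.hol Pool.Agent.K3h77.GD.HolProd.prod Pool.Agent.K3h77.GD.Lim1.main
  Pool.Agent.K3h77.GD.Lim2.main

theorem hWD : S_WD := Pool.Agent.K3h40.GD.Wd.main hRoot
  (root2 Pool.Agent.K3h72.GD.Const.main Pool.Agent.K3h35.GD.Trans.main
  Pool.Agent.K3h77.GD.HolProd.hol Pool.Agent.K3h77.GD.HolProd.prod Pool.Agent.K3h77.GD.Lim1.main
  Pool.Agent.K3h77.GD.Lim2.main) Pool.Agent.K3h23.GD.asy Pool.Agent.K3h23.GD.large

/-- the height in terms of the invariant -/
theorem mul_faltings {M : Type} [Field M] [NumberField M] (j : M)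
    (τ : InfinitePlace M → UpperHalfPlane) (h : IsPeriod j τ) :
    (Module.finrank ℚ M : ℝ) * faltings j τ = HT M j / 12 := HT_period hWD j τ h

theorem isHeight_iff {N : ℕ} (F : Factor N) (x : ℝ) :
    F.IsHeight x ↔ x = HT F.L (F.E.c₄ ^ 3 / F.E.Δ) / 12 := by
  constructor
  · rintro ⟨τ, h1, rfl⟩
    exact mul_faltings _ τ h1
  · intro hx
    refine ⟨fun w => Classical.choose (Pool.Agent.Y729.FW.j_surj
      (w.embedding (F.E.c₄ ^ 3 / F.E.Δ))), fun w => ?_, ?_⟩
    · exact Classical.choose_spec (Pool.Agent.Y729.FW.j_surj (w.embedding (F.E.c₄ ^ 3 / F.E.Δ)))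
    · rw [hx]
      refine (mul_faltings _ _ fun w => ?_).symm
      exact Classical.choose_spec (Pool.Agent.Y729.FW.j_surj (w.embedding (F.E.c₄ ^ 3 / F.E.Δ)))

/-- the member of the tower -/
theorem exists_factor {N : ℕ} (hN : 2 ∣ N) (l : ℚ) (h0 : l ≠ 0) (h1 : l ≠ 1) (hO : Out N ℚ l)
    (k : ℕ) : ∃ F : Factor N, F.dim ≤ 2 ^ k ∧ 1 ≤ F.dim ∧
      (F.dim : ℝ) * (HT ℚ (JJ l) / 12 + k * Real.log 2 / 2 - 2 / 3 * Real.log 2) ≤
        HT F.L (F.E.c₄ ^ 3 / F.E.Δ) / 12 := by
  obtain ⟨L, hL1, hL2, t, g0, g1, g2, g3, g4⟩ :=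
    piece Pool.Agent.K3h3.GD.Unr.main hWD Pool.Agent.K3h72.GD.Conj.main Pool.Agent.K3h87.GD.extf
      Pool.Agent.K3h87.GD.exti hRoot Pool.Agent.K3h40.GD.Fin.main hN l h0 h1 hO k
  refine ⟨⟨L, hL1, hL2, leg t, leg_ne t g0 g1, fun p hp hpN => (g2 p hp hpN).1, fun v hv =>
    ⟨1, ?_⟩⟩, g3, ?_, ?_⟩
  · rw [one_smul]
    exact leg_good hN t g0 g1 g2 v hv
  · exact Module.finrank_pos
  · show _ ≤ HT L ((leg t).c₄ ^ 3 / (leg t).Δ) / 12
    rw [leg_j t g0 g1]
    exact g4

end Aux

/-- the height in terms of the invariant, for the Legendre curve -/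
theorem isHeightLegendre_iff (l : ℚ) (x : ℝ) : IsHeightLegendre l x ↔
    x = Pool.Agent.K3h84.GD.HT ℚ ((legendre l).c₄ ^ 3 / (legendre l).Δ) / 12 := by
  have key : ∀ τ : InfinitePlace ℚ → UpperHalfPlane,
      IsPeriod ((legendre l).c₄ ^ 3 / (legendre l).Δ) τ →
      faltings ((legendre l).c₄ ^ 3 / (legendre l).Δ) τ =
        Pool.Agent.K3h84.GD.HT ℚ ((legendre l).c₄ ^ 3 / (legendre l).Δ) / 12 := by
    intro τ h
    have h3 := mul_faltings _ τ h
    rwa [Module.finrank_self, Nat.cast_one, one_mul] at h3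
  constructor
  · rintro ⟨τ, h1, rfl⟩
    exact key τ h1
  · intro hx
    have hp : ∀ w : InfinitePlace ℚ, ∃ τ, jInv τ =
        w.embedding ((legendre l).c₄ ^ 3 / (legendre l).Δ) := fun w =>
      Pool.Agent.Y729.FW.j_surj _
    choose τ hτ using hp
    exact ⟨τ, hτ, by rw [hx, key τ hτ]⟩

/-- the main part -/
theorem main : ∃ C : ℝ, ∀ N : ℕ, 2 ∣ N → ∀ l : ℚ, l ≠ 0 → l ≠ 1 →
      (∀ p : ℕ, p.Prime → ¬ p ∣ N → padicValRat p l = 0 ∧ padicValRat p (1 - l) = 0) →
      ∀ x₀ : ℝ, IsHeightLegendre l x₀ →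
      ∀ g : ℕ, ∃ A : List (Factor N), (A.map Factor.dim).sum = g ∧
        ∀ h : Factor N → ℝ, (∀ F ∈ A, F.IsHeight (h F)) →
          g * x₀ + g * Real.log g / 2 - C * g ≤ (A.map h).sum := by
  obtain ⟨C, hC⟩ := Pool.Agent.K3h40.GD.Num.main (2 / 3 * Real.log 2)
  refine ⟨C, fun N hN l h0 h1 hl x₀ hx₀ g => ?_⟩
  have hO : Pool.Agent.K3h84.GD.Out N ℚ l := Pool.Agent.K3h84.GD.Out_rat h0 h1 hl
  have hx : x₀ = Pool.Agent.K3h84.GD.HT ℚ (Pool.Agent.K3h84.GD.JJ l) / 12 := by
    rw [(isHeightLegendre_iff l x₀).1 hx₀, ← Pool.Agent.K3h84.GD.leg_j l h0 h1]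
    rfl
  choose F hF1 hF2 hF3 using exists_factor hN l h0 h1 hO
  obtain ⟨ks, hk1, hk2⟩ := hC x₀ (fun k => (F k).dim)
    (fun k => Pool.Agent.K3h84.GD.HT (F k).L ((F k).E.c₄ ^ 3 / (F k).E.Δ) / 12) hF2 hF1
    (fun k => by rw [hx]; exact hF3 k) g
  refine ⟨ks.map F, ?_, fun h hh => ?_⟩
  · rw [List.map_map]
    exact hk1
  · have h2 : ((ks.map F).map h).sum = (ks.map fun k =>
        Pool.Agent.K3h84.GD.HT (F k).L ((F k).E.c₄ ^ 3 / (F k).E.Δ) / 12).sum := by
      rw [List.map_map]
      congr 1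
      refine List.map_congr_left fun k hk => ?_
      exact (isHeight_iff (F k) _).1 (hh (F k) (List.mem_map.2 ⟨k, hk, rfl⟩))
    rw [h2]
    exact hk2

/-- **Growth of the Faltings height with the dimension.** The heights of the factors and of the
Legendre curves are well defined. There is an absolute constant `C` such that for all even `N`, all
rational numbers `l ≠ 0, 1` for which `l` and `1 - l` are units outside `N` and all `g` there is a
finite list `A` of factors over `ℤ[1 / N]` of total dimension `g` and total stable Faltings height at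
least `g x₀ + (1/2) g log g - C g`, where `x₀` is the stable Faltings height of
`y² = x (x - 1) (x - l)`. And for each `δ > 0` there are a constant `C` and infinitely many squarefree
`N` such that for all `g` there is a finite list `A` of factors over `ℤ[1 / N]` of total dimension
`g` and total stable Faltings height at least `g ((1/2 - δ) log N + (1/2) log g - C)`. -/
theorem result :
    (∀ (N : ℕ) (F : Factor N), ∃! x, F.IsHeight x) ∧ (∀ l : ℚ, ∃! x, IsHeightLegendre l x) ∧
    (∃ C : ℝ, ∀ N : ℕ, 2 ∣ N → ∀ l : ℚ, l ≠ 0 → l ≠ 1 →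
      (∀ p : ℕ, p.Prime → ¬ p ∣ N → padicValRat p l = 0 ∧ padicValRat p (1 - l) = 0) →
      ∀ x₀ : ℝ, IsHeightLegendre l x₀ →
      ∀ g : ℕ, ∃ A : List (Factor N), (A.map Factor.dim).sum = g ∧
        ∀ h : Factor N → ℝ, (∀ F ∈ A, F.IsHeight (h F)) →
          g * x₀ + g * Real.log g / 2 - C * g ≤ (A.map h).sum) ∧
    ∀ δ : ℝ, 0 < δ → ∃ C : ℝ, ∀ B : ℕ, ∃ N : ℕ, B ≤ N ∧ Squarefree N ∧ 2 ∣ N ∧
      ∀ g : ℕ, ∃ A : List (Factor N), (A.map Factor.dim).sum = g ∧
        ∀ h : Factor N → ℝ, (∀ F ∈ A, F.IsHeight (h F)) →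
          g * ((1 / 2 - δ) * Real.log N + Real.log g / 2 - C) ≤ (A.map h).sum := by
  refine ⟨fun N F => ⟨_, (isHeight_iff F _).2 rfl, fun y hy => (isHeight_iff F y).1 hy⟩,
    fun l => ⟨_, (isHeightLegendre_iff l _).2 rfl, fun y hy => (isHeightLegendre_iff l y).1 hy⟩,
    main, fun δ hδ => ?_⟩
  obtain ⟨C, hC⟩ := main
  set δ' := min δ (1 / 2) with hδ'
  have hd1 : 0 < δ' := lt_min hδ (by norm_num)
  have hd2 : δ' ≤ 1 / 2 := min_le_right _ _
  have hd3 : δ' ≤ δ := min_le_left _ _
  obtain ⟨c, hc⟩ := Pool.Agent.K3h84.GD.low hWD δ' hd1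
  refine ⟨C + c + Real.log 2 / 2, fun B => ?_⟩
  obtain ⟨N, m, hm, hB, hsq, hN, hle, hval⟩ := Pool.Agent.K3h84.GD.family B
  have hlog2 : 0 < Real.log 2 := Real.log_pos (by norm_num)
  have hm1 : (1 : ℚ) < 2 ^ m := one_lt_pow₀ (by norm_num) (by omega)
  have l0 : (2 : ℚ) ^ m ≠ 0 := by positivity
  have l1 : (2 : ℚ) ^ m ≠ 1 := hm1.ne'
  obtain ⟨x₀, hx₀, -⟩ : ∃! x, IsHeightLegendre ((2 : ℚ) ^ m) x :=
    ⟨_, (isHeightLegendre_iff _ _).2 rfl, fun y hy => (isHeightLegendre_iff _ y).1 hy⟩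
  have hx := hc ((2 : ℚ) ^ m) l0 l1
  rw [Pool.Agent.K3h84.GD.height_two_pow] at hx
  have hx' : x₀ = Pool.Agent.K3h84.GD.HT ℚ (Pool.Agent.K3h84.GD.JJ ((2 : ℚ) ^ m)) / 12 := by
    rw [(isHeightLegendre_iff _ x₀).1 hx₀, ← Pool.Agent.K3h84.GD.leg_j _ l0 l1]
    rfl
  rw [← hx'] at hx
  have hN1 : 1 ≤ N := Nat.pos_of_ne_zero hsq.ne_zero
  have hlN0 : 0 ≤ Real.log N := Real.log_nonneg (by exact_mod_cast hN1)
  have hlN : Real.log N ≤ (m + 1) * Real.log 2 := by
    have h1 : Real.log N ≤ Real.log ((2 : ℝ) ^ (m + 1)) :=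
      Real.log_le_log (by exact_mod_cast hN1) (by exact_mod_cast hle)
    rw [Real.log_pow] at h1
    push_cast at h1
    exact h1
  have hlow : (1 / 2 - δ) * Real.log N ≤ x₀ + c + Real.log 2 / 2 := by
    have h1 : (1 / 2 - δ) * Real.log N ≤ (1 / 2 - δ') * Real.log N :=
      mul_le_mul_of_nonneg_right (by linarith) hlN0
    have h2 : (1 / 2 - δ') * Real.log N ≤ (1 / 2 - δ') * ((m + 1) * Real.log 2) :=
      mul_le_mul_of_nonneg_left hlN (by linarith)
    have h3 : (1 / 2 - δ') * ((m + 1) * Real.log 2) ≤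
        (1 / 2 - δ') * (m * Real.log 2) + Real.log 2 / 2 := by
      have : 0 ≤ δ' * Real.log 2 := by positivity
      nlinarith
    linarith
  refine ⟨N, hB, hsq, hN, fun g => ?_⟩
  obtain ⟨A, hA1, hA2⟩ := hC N hN ((2 : ℚ) ^ m) l0 l1 hval x₀ hx₀ g
  refine ⟨A, hA1, fun h hh => le_trans ?_ (hA2 h hh)⟩
  have hg : (0 : ℝ) ≤ g := Nat.cast_nonneg _
  have := mul_le_mul_of_nonneg_left hlow hg
  nlinarith

end Pool.Agent.Results.MP_07b2d0_nt.GrowthInTheDimension
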