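import Pool.Agent.Results.MP_07b2d0_nt.MostValuesOfN
import Pool.Agent.W38.PRb
import Pool.Agent.K3h95.MS.Comb
import Pool.Agent.K3h95.MS.L1728

/-!
# One geometric factor for most sets of `k` bad primes

We consider the abelian schemes `A` over `ℤ[1 / N]`, of any dimension `g`, which become isomorphic to a
product `E_1 × ⋯ × E_g` of elliptic curves over some number field `M`, where the modular invariants
`j_i` of the `E_i` are rational and of level two, that is, they are the invariants of elliptic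
curves over `ℚ` with full rational two-torsion. The `A` need not be of product `GL_2`-type. The curves
`E_i` over `M` have good reduction at all primes of `M` which do not divide `N`, and `h_F(A)` is the
sum of the stable Faltings heights of the `E_i`. This is all that is used of `A`. The definitions
`IsFactor`, `IsPeriod`, `faltings` are those of `MostValuesOfN`.

Here `N = m p_1 ⋯ p_k` is the product of a fixed number `m` and of `k` primes. There are finite sets
`J(m)` of rational numbers and numbers `H(m)`, with `J(m) = {1728}` if `m` is a power of two, such that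
for all but at most the proportion `(C k) ^ k X ^ (-1/3 + δ)` of the sets `{p_1, …, p_k}` of `k` primes
`≤ X` ALL invariants `j_i` of ALL these abelian schemes over `ℤ[1 / (m p_1 ⋯ p_k)]`, of all
dimensions `g`, belong to `J(m)`, and `h_F(A) ≤ H(m) g`. The constant `C` depends on `m` and `δ` only.
So for most sets of `k` primes `p_i`, and `m = 2`, all these abelian schemes are, over the algebraic
closure, powers of the curve `y² = x³ - x`.

The input is the number `X ^ (2 / 3 + o(1))` of the rational numbers `x` of all heights with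
`rad(x (1 - x)) ≤ X` (starting files, `Pool.Agent.Y728.mainK`).
-/

set_option autoImplicit false

namespace Pool.Agent.Results.MP_07b2d0_nt.MostSetsOfPrimes

open NumberField IsDedekindDomain
open Pool.Agent.Results.MP_07b2d0_nt.MostValuesOfN

section Aux

open Pool.Agent.TH876.Loc

/-- the number of the invariants of level two with odd radical of the denominator at most `Y` -/
theorem count_j (ε : ℝ) (hε : 0 < ε) : ∃ D : ℝ, 0 < D ∧ ∀ Y : ℝ, 1 ≤ Y → ∀ B : Finset ℚ,
    (∀ j ∈ B, LevelTwo j ∧ ∏ q ∈ j.den.primeFactors.erase 2, (q : ℝ) ≤ Y) →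
      (B.card : ℝ) ≤ D * Y ^ (2 / 3 + ε) := by
  classical
  obtain ⟨D, hD, h⟩ := Pool.Agent.K3h24.SB.count (Pool.Agent.K3h24.SB.adm_s2 (K := ℚ)) ε hε
  refine ⟨D, hD, fun Y hY B hB => ?_⟩
  obtain ⟨h1, h2⟩ := h Y hY
  choose! l hl using fun j => fun (hj : LevelTwo j) => hj
  have hinj : Set.InjOn l (B : Set ℚ) := by
    intro j hj j' hj' hll
    have h1 := hl j (hB j hj).1
    have h2 := hl j' (hB j' hj').1
    rw [← hll] at h2
    have hne : l j ^ 2 * (1 - l j) ^ 2 ≠ 0 :=
      mul_ne_zero (pow_ne_zero _ h1.1) (pow_ne_zero _ (sub_ne_zero.2 h1.2.1.symm))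
    exact mul_right_cancel₀ hne (h1.2.2.trans h2.2.2.symm)
  have hsub : ((B.image l : Finset ℚ) : Set ℚ) ⊆
      {x : ℚ | Pt (-x) ∧ nn (Pool.Agent.K3h24.SB.s2 x) ≤ Y} := by
    intro x hx
    rw [Finset.mem_coe, Finset.mem_image] at hx
    obtain ⟨j, hj, rfl⟩ := hx
    have h2 := hl j (hB j hj).1
    refine ⟨Pool.Agent.K3h24.SB.pt_neg h2.1 h2.2.1, ?_⟩
    rw [Pool.Agent.K3h24.SB.nn_s2 h2.1 h2.2.1 h2.2.2]
    exact (hB j hj).2
  have h3 := Set.ncard_le_ncard hsub h1
  rw [Set.ncard_coe_finset, Finset.card_image_of_injOn hinj] at h3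
  exact le_trans (by exact_mod_cast h3) h2

theorem level_1728 : LevelTwo 1728 := ⟨-1, by norm_num, by norm_num, by norm_num⟩

end Aux

/-- **One geometric factor for most sets of `k` bad primes.** -/
theorem result : ∃ (J : ℕ → Finset ℚ) (H : ℕ → ℝ), (∀ e : ℕ, J (2 ^ e) = {1728}) ∧
    ∀ m : ℕ, 0 < m → ∀ δ : ℝ, 0 < δ → ∃ C : ℝ, 0 < C ∧ ∀ X : ℝ, 2 ≤ X → ∀ k : ℕ,
      (({P : Finset ℕ | P.card = k ∧ (∀ p ∈ P, p.Prime ∧ (p : ℝ) ≤ X) ∧
        ¬ ∀ (M : Type) [Field M] [NumberField M] (g : ℕ) (E : Fin g → WeierstrassCurve M)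
          (j : Fin g → ℚ) (τ : Fin g → InfinitePlace M → UpperHalfPlane),
          (∀ i, IsFactor (m * ∏ p ∈ P, p) (E i) (j i) ∧
            IsPeriod (algebraMap ℚ M (j i)) (τ i)) →
          (∀ i, j i ∈ J m) ∧
            ∑ i, faltings (algebraMap ℚ M (j i)) (τ i) ≤ H m * g}.ncard : ℕ) : ℝ) ≤
        (C * k) ^ k * X ^ (-(1 / 3 : ℝ) + δ) * ((Nat.primeCounting ⌊X⌋₊).choose k : ℝ) := by
  classical
  obtain ⟨c, hc0, hc⟩ := Pool.Agent.Y729.FW.fal_two
  set J : ℕ → Finset ℚ := fun m =>
    (Pool.Agent.K3h24.SB.odd_fin (max 1 (m : ℝ)) (le_max_left _ _)).toFinset.filter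
      fun j => (∏ q ∈ j.den.primeFactors.erase 2, q) ∣ m with hJ
  have hmemJ : ∀ m : ℕ, 0 < m → ∀ j : ℚ, j ∈ J m ↔
      LevelTwo j ∧ (∏ q ∈ j.den.primeFactors.erase 2, q) ∣ m := by
    intro m hm j
    rw [hJ]
    simp only [Finset.mem_filter, Set.Finite.mem_toFinset, Set.mem_ofPred_eq]
    constructor
    · rintro ⟨⟨h1, -⟩, h2⟩
      exact ⟨h1, h2⟩
    · rintro ⟨h1, h2⟩
      refine ⟨⟨h1, le_trans ?_ (le_max_right _ _)⟩, h2⟩
      have h3 := Nat.le_of_dvd hm h2
      have h4 : ((∏ q ∈ j.den.primeFactors.erase 2, q : ℕ) : ℝ) ≤ (m : ℝ) := Nat.cast_le.2 h3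
      rwa [Nat.cast_prod] at h4
  set H : ℕ → ℝ := fun m => (∑ j ∈ J m, Height.logHeight₁ j + c) / 12 with hH
  refine ⟨J, H, fun e => ?_, fun m hm δ hδ => ?_⟩
  · ext j
    rw [hmemJ _ (by positivity), Finset.mem_singleton]
    constructor
    · rintro ⟨⟨l, hl, hl1, hj⟩, hd⟩
      refine Pool.Agent.K3h95.MS.eq_1728 hl hl1 hj fun p hp hp2 hpd => ?_
      have h1 : p ∈ j.den.primeFactors.erase 2 := by
        rw [Finset.mem_erase, Nat.mem_primeFactors]
        exact ⟨hp2, hp, hpd, j.den_ne_zero⟩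
      have h2 : p ∣ 2 ^ e := (Finset.dvd_prod_of_mem (fun q : ℕ => q) h1).trans hd
      exact hp2 ((Nat.prime_dvd_prime_iff_eq hp Nat.prime_two).mp (hp.dvd_of_dvd_pow h2))
    · rintro rfl
      refine ⟨level_1728, ?_⟩
      have : (1728 : ℚ).den = 1 := rfl
      rw [this]
      simp
  · obtain ⟨C, hC, h⟩ := Pool.Agent.K3h95.MS.exceptional LevelTwo
      (fun j : ℚ => j.den.primeFactors.erase 2)
      (fun j q hq => Nat.prime_of_mem_primeFactors (Finset.mem_of_mem_erase hq))
      count_j Pool.Agent.W38.PR.cheb m hm δ hδ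
    refine ⟨C, hC, fun X hX k => ?_⟩
    set Exc : Set (Finset ℕ) := {P : Finset ℕ | P.card = k ∧ (∀ p ∈ P, p.Prime ∧ (p : ℝ) ≤ X) ∧
        ¬ ∀ (M : Type) [Field M] [NumberField M] (g : ℕ) (E : Fin g → WeierstrassCurve M)
          (j : Fin g → ℚ) (τ : Fin g → InfinitePlace M → UpperHalfPlane),
          (∀ i, IsFactor (m * ∏ p ∈ P, p) (E i) (j i) ∧
            IsPeriod (algebraMap ℚ M (j i)) (τ i)) →
          (∀ i, j i ∈ J m) ∧
            ∑ i, faltings (algebraMap ℚ M (j i)) (τ i) ≤ H m * g} with hExc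
    have hfin : Exc.Finite := by
      refine (Finset.finite_toSet (Finset.powerset (Nat.primesLE ⌊X⌋₊))).subset ?_
      rintro P ⟨-, hP, -⟩
      rw [Finset.mem_coe, Finset.mem_powerset]
      intro p hp
      rw [Nat.mem_primesLE]
      exact ⟨Nat.le_floor (hP p hp).2, (hP p hp).1⟩
    rw [Set.ncard_eq_toFinset_card Exc hfin]
    refine h X hX k hfin.toFinset fun P hP => ?_
    rw [Set.Finite.mem_toFinset] at hP
    obtain ⟨hPk, hPp, hneg⟩ := hP
    refine ⟨hPk, hPp, ?_⟩
    by_contra hcon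
    push Not at hcon
    apply hneg
    intro M _ _ g E j τ hE
    have hnn : ∀ j : ℚ, 0 ≤ Height.logHeight₁ j := fun j => Height.zero_le_logHeight₁ j
    have hj : ∀ i, j i ∈ J m := by
      intro i
      obtain ⟨h1, h2⟩ := dvd_of_mem (N := m * ∏ p ∈ P, p) (j := j i)
        ⟨M, _, _, E i, (hE i).1⟩
      exact (hmemJ m hm (j i)).mpr ⟨h1, hcon (j i) h1 h2⟩
    refine ⟨hj, ?_⟩
    have hone : ∀ i, faltings (algebraMap ℚ M (j i)) (τ i) ≤ H m := by
      intro i
      have h1 : 12 * (Module.finrank ℚ M : ℝ) * faltings (algebraMap ℚ M (j i)) (τ i) ≤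
          Height.logHeight₁ (algebraMap ℚ M (j i)) + c * Module.finrank ℚ M :=
        hc M (algebraMap ℚ M (j i)) (τ i) (hE i).2
      rw [height_ext] at h1
      have h2 : Height.logHeight₁ (j i) ≤ ∑ j ∈ J m, Height.logHeight₁ j :=
        Finset.single_le_sum (f := fun j : ℚ => Height.logHeight₁ j) (fun j _ => hnn j) (hj i)
      have hM : (0 : ℝ) < Module.finrank ℚ M := by exact_mod_cast Module.finrank_pos
      rw [hH, le_div_iff₀ (by norm_num)]
      have h3 : (Module.finrank ℚ M : ℝ) * (faltings (algebraMap ℚ M (j i)) (τ i) * 12) ≤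
          Module.finrank ℚ M * (∑ j ∈ J m, Height.logHeight₁ j + c) := by
        have h4 := mul_le_mul_of_nonneg_left h2 hM.le
        linarith
      exact le_of_mul_le_mul_left h3 hM
    calc ∑ i, faltings (algebraMap ℚ M (j i)) (τ i) ≤ ∑ _i : Fin g, H m :=
          Finset.sum_le_sum fun i _ => hone i
      _ = H m * g := by
          rw [Finset.sum_const, Finset.card_univ, Fintype.card_fin, nsmul_eq_mul]
          ring

end Pool.Agent.Results.MP_07b2d0_nt.MostSetsOfPrimes
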