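import Mathlib
import Pool.Agent.K3h24.SB.RatP
import Pool.Agent.Helper259.HtExt

/-!
# Shafarevich's finiteness with bounded heights for most values of `N`

We consider the abelian schemes `A` over `ℤ[1 / N]`, of any dimension `g`, which become isomorphic to a
product `E_1 × ⋯ × E_g` of elliptic curves over some number field `M`, where the modular invariants
`j_i` of the `E_i` are rational and of level two, that is, they are the invariants of elliptic
curves over `ℚ` with full rational two-torsion. Besides the products of such curves and of their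
twists over `ℚ` these are for instance the tensor products `E ⊗ Λ` of an elliptic curve with a
representation `Λ` of the Galois group by integral matrices; they need not be of product
`GL_2`-type. The curves `E_i` over `M` have good reduction at all primes of `M` which do not divide
`N`, and `h_F(A)` is the sum of the stable Faltings heights of the `E_i`. This is all that is used of
`A`.

1. For every `ε > 0` there are a finite set `J(ε)` of rational numbers and a constant `C(ε)` such that,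
   for every `X ≥ 1`, for all but at most `ε X` of the positive integers `N ≤ X` all invariants `j_i`
   of ALL these abelian schemes `A` over `ℤ[1 / N]`, of all dimensions `g`, belong to `J(ε)`, and
   `h_F(A) ≤ C(ε) g`. The bound does not depend on `N`.
2. The number of the `N ≤ X` for which the product of the odd primes in the denominator of an
   invariant `j_i` of one of these `A` is larger than `T` is at most `C T ^ (-1/3 + δ) X`.
3. The number of all invariants `j_i` for `N` is finite, and it is bounded on average.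

The input is the number `X ^ (2 / 3 + o(1))` of the rational numbers `x` of all heights with
`rad(x (1 - x)) ≤ X` (starting files, `Pool.Agent.Y728.mainK`).
-/

set_option autoImplicit false

namespace Pool.Agent.Results.MP_07b2d0_nt.MostValuesOfN

open NumberField IsDedekindDomain

/-- the modular invariant `j(τ) = E₄(τ) ^ 3 / Δ(τ) = 1 / q + 744 + ⋯` -/
noncomputable def jInv (τ : UpperHalfPlane) : ℂ :=
  ModularForm.E₄ τ ^ 3 / ModularForm.discriminant τ

/-- the archimedean term `- log (|Δ(τ)| (Im τ) ^ 6)` of the Faltings height -/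
noncomputable def arch (τ : UpperHalfPlane) : ℝ :=
  -Real.log (‖ModularForm.discriminant τ‖ * τ.im ^ 6)

/-- the points `τ w` have modular invariant `j` -/
def IsPeriod {M : Type} [Field M] [NumberField M] (j : M)
    (τ : InfinitePlace M → UpperHalfPlane) : Prop := ∀ w, jInv (τ w) = w.embedding j

/-- Silverman's formula for the stable Faltings height (up to an additive constant which depends on
the normalisation of the metric only) of an elliptic curve with modular invariant `j ∈ M`, where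
`τ w` is a point of the upper half plane with modular invariant `j` at the infinite place `w`:
`12 [M : ℚ] h_F = ∑_v log max(|j|_v, 1) + ∑_w [M_w : ℝ] arch (τ w)`. -/
noncomputable def faltings {M : Type} [Field M] [NumberField M] (j : M)
    (τ : InfinitePlace M → UpperHalfPlane) : ℝ :=
  (∑ᶠ v : HeightOneSpectrum (𝓞 M), Real.log (max (FinitePlace.mk v j) 1) +
    ∑ w : InfinitePlace M, (w.mult : ℝ) * arch (τ w)) / (12 * Module.finrank ℚ M)

/-- good reduction at `v`: some Weierstrass equation over `M` of the curve is integral at `v` and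
has a discriminant which is a unit at `v` -/
def GoodAt {M : Type} [Field M] [NumberField M] (v : HeightOneSpectrum (𝓞 M))
    (E : WeierstrassCurve M) : Prop :=
  ∃ C : WeierstrassCurve.VariableChange M,
    v.valuation M (C • E).a₁ ≤ 1 ∧ v.valuation M (C • E).a₂ ≤ 1 ∧ v.valuation M (C • E).a₃ ≤ 1 ∧
    v.valuation M (C • E).a₄ ≤ 1 ∧ v.valuation M (C • E).a₆ ≤ 1 ∧ v.valuation M (C • E).Δ = 1

/-- `j` is the modular invariant of a Legendre curve `y² = x (x - 1) (x - l)` over `ℚ`, that is, of an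
elliptic curve over `ℚ` with full rational two-torsion -/
def LevelTwo (j : ℚ) : Prop :=
  ∃ l : ℚ, l ≠ 0 ∧ l ≠ 1 ∧ j * (l ^ 2 * (1 - l) ^ 2) = 256 * (l ^ 2 - l + 1) ^ 3

/-- `E` is an elliptic curve over the number field `M` with good reduction at all primes which do not
divide `N`, and its modular invariant is the rational number `j`, of level two. The factors over
`M` of the abelian schemes `A` over `ℤ[1 / N]` have this property. -/
structure IsFactor (N : ℕ) {M : Type} [Field M] [NumberField M] (E : WeierstrassCurve M)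
    (j : ℚ) : Prop where
  disc : E.Δ ≠ 0
  inv : E.c₄ ^ 3 / E.Δ = algebraMap ℚ M j
  level : LevelTwo j
  good : ∀ v : HeightOneSpectrum (𝓞 M), (N : 𝓞 M) ∉ v.asIdeal → GoodAt v E

/-- all modular invariants of such curves, over all number fields -/
def Invariants (N : ℕ) : Set ℚ :=
  {j | ∃ (M : Type) (_ : Field M) (_ : NumberField M) (E : WeierstrassCurve M), IsFactor N E j}

/-- the product of the odd primes which divide the denominator of `j` -/
noncomputable def oddRadical (j : ℚ) : ℝ := ∏ q ∈ j.den.primeFactors.erase 2, (q : ℝ)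

section Aux

open Pool.Agent.K3h24.SB Pool.Agent.TH876.Loc Finset

theorem par_mem {N : ℕ} {M : Type} [Field M] [NumberField M] {E : WeierstrassCurve M} {j l : ℚ}
    (h : IsFactor N E j) (hl : l ≠ 0) (hl1 : l ≠ 1)
    (hj : j * (l ^ 2 * (1 - l) ^ 2) = 256 * (l ^ 2 - l + 1) ^ 3) :
    l ∈ Sol s2 (Ideal.span {(N : 𝓞 ℚ)}) := by
  refine par_over (M := M) _ E hl hl1 hj h.inv fun v hv => h.good v fun hN => hv ?_
  rw [Ideal.span_singleton_le_iff_mem, Ideal.mem_comap, map_natCast]
  exact hN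

/-- the radical divides `N` -/
theorem dvd_of_mem {N : ℕ} {j : ℚ} (h : j ∈ Invariants N) :
    LevelTwo j ∧ (∏ q ∈ j.den.primeFactors.erase 2, q) ∣ N := by
  classical
  obtain ⟨M, _, _, E, h⟩ := h
  obtain ⟨l, hl, hl1, hj⟩ := h.level
  refine ⟨h.level, ?_⟩
  have hmem := par_mem h hl hl1 hj
  refine Finset.prod_primes_dvd _ (fun q hq => ?_) fun q hq => ?_
  · exact (Nat.prime_of_mem_primeFactors (Finset.mem_of_mem_erase hq)).prime
  · rw [Finset.mem_erase, Nat.mem_primeFactors] at hq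
    obtain ⟨h2, hq, hd, -⟩ := hq
    obtain ⟨p, rfl⟩ := exists_qq hq
    by_contra hc
    have hv2 : p.valuation ℚ 2 = 1 := by
      have : ¬ qq p ∣ 2 := fun h => h2 ((Nat.prime_dvd_prime_iff_eq hq Nat.prime_two).1 h)
      exact_mod_cast (val_nat_one p 2).2 this
    obtain ⟨v, hv⟩ := exists_over (M := M) p
    have hg : GoodAt v E := h.good v fun hN => by
      have h3 : algebraMap (𝓞 ℚ) (𝓞 M) (N : 𝓞 ℚ) ∈ v.asIdeal := by
        rw [map_natCast]
        exact hN
      rw [mem_over hv, mem_p] at h3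
      exact hc h3
    have h3 := good_j v E hg
    rw [h.inv] at h3
    have h4 : p.valuation ℚ j ≤ 1 := by
      rw [← not_lt]
      intro h5
      have h6 : p.valuation ℚ j⁻¹ < 1 := by
        rw [map_inv₀]
        exact inv_lt_one_of_one_lt₀ h5
      have h7 := val_over_lt hv h6
      rw [map_inv₀, map_inv₀] at h7
      have h8 : v.valuation M (algebraMap ℚ M j) ≠ 0 := by
        intro h0
        rw [map_eq_zero, map_eq_zero] at h0
        rw [h0, map_zero] at h5
        exact absurd h5 (not_lt.2 zero_le)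
      exact absurd h7 (not_lt.2 ((one_le_inv₀ (zero_lt_iff.2 h8)).2 h3))
    exact ((val_le_iff p j).1 h4) hd

theorem odd_pos (j : ℚ) : 0 < oddRadical j := by
  refine Finset.prod_pos fun q hq => ?_
  have := (Nat.prime_of_mem_primeFactors (Finset.mem_of_mem_erase hq)).pos
  exact_mod_cast this

theorem inv_sub {N : ℕ} (hN : N ≠ 0) {X : ℝ} (hX : (N : ℝ) ≤ X) :
    Invariants N ⊆ {j : ℚ | Pool.Agent.K3h24.SB.LevelTwo j ∧ oddRad j ≤ max 1 X} := by
  intro j hj
  obtain ⟨h1, h2⟩ := dvd_of_mem hj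
  refine ⟨h1, le_trans ?_ (le_max_right _ _)⟩
  refine le_trans ?_ hX
  have h3 := Nat.le_of_dvd (Nat.pos_of_ne_zero hN) h2
  have h4 : ((∏ q ∈ j.den.primeFactors.erase 2, q : ℕ) : ℝ) ≤ (N : ℝ) := Nat.cast_le.2 h3
  rwa [Nat.cast_prod] at h4

/-- the multiples of `r` -/
theorem mult_nat (r : ℕ) (X : ℝ) (hX : 0 ≤ X) :
    ((((Finset.Icc 1 ⌊X⌋₊).filter fun N => r ∣ N).card : ℕ) : ℝ) ≤ X * (r : ℝ)⁻¹ := by
  have h1 : ((Finset.Icc 1 ⌊X⌋₊).filter fun N => r ∣ N).card = ⌊X⌋₊ / r := by
    have := Nat.Ioc_filter_dvd_card_eq_div ⌊X⌋₊ r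
    rw [← this]
    rfl
  rw [h1]
  calc ((⌊X⌋₊ / r : ℕ) : ℝ) ≤ (⌊X⌋₊ : ℝ) / r := Nat.cast_div_le
    _ ≤ X / r := div_le_div_of_nonneg_right (Nat.floor_le hX) (Nat.cast_nonneg _)
    _ = X * (r : ℝ)⁻¹ := div_eq_mul_inv _ _

theorem set_eq (P : ℕ → Prop) (X : ℝ) :
    {N : ℕ | N ≠ 0 ∧ (N : ℝ) ≤ X ∧ P N} ⊆ ((Finset.Icc 1 ⌊X⌋₊ : Finset ℕ) : Set ℕ) := by
  rintro N ⟨h1, h2, -⟩
  rw [Finset.coe_Icc]
  exact ⟨Nat.one_le_iff_ne_zero.2 h1, Nat.le_floor h2⟩

open Classical in
/-- the values of `N` with an invariant of large radical -/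
theorem rare_nat (δ : ℝ) (hδ : 0 < δ) : ∃ C : ℝ, 0 < C ∧ ∀ T X : ℝ, 1 ≤ T → 1 ≤ X →
    (({N : ℕ | N ≠ 0 ∧ (N : ℝ) ≤ X ∧ ∃ j ∈ Invariants N, T < oddRadical j}.ncard : ℕ) : ℝ) ≤
      C * T ^ (-(1 / 3) + δ) * X := by
  obtain ⟨C, hC, h⟩ := odd_tail δ hδ
  refine ⟨C, hC, fun T X hT hX => ?_⟩
  have hX0 : 0 ≤ X := by linarith
  have hfin := odd_fin (max 1 X) (le_max_left _ _)
  set A : Finset ℚ := hfin.toFinset.filter fun j => T < oddRad j with hA
  have hmemA : ∀ j ∈ A, Pool.Agent.K3h24.SB.LevelTwo j ∧ T < oddRad j := by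
    intro j hj
    rw [hA, Finset.mem_filter, Set.Finite.mem_toFinset] at hj
    exact ⟨hj.1.1, hj.2⟩
  set R : ℚ → ℕ := fun j => ∏ q ∈ j.den.primeFactors.erase 2, q with hR
  have hRpos : ∀ j, 0 < R j := fun j => Finset.prod_pos fun q hq =>
    (Nat.prime_of_mem_primeFactors (Finset.mem_of_mem_erase hq)).pos
  have hRc : ∀ j, (R j : ℝ) = oddRad j := fun j => by
    rw [hR]
    unfold oddRad
    push_cast
    rfl
  have hsub : {N : ℕ | N ≠ 0 ∧ (N : ℝ) ≤ X ∧ ∃ j ∈ Invariants N, T < oddRadical j} ⊆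
      ((A.biUnion fun j => (Finset.Icc 1 ⌊X⌋₊).filter fun N => R j ∣ N : Finset ℕ) : Set ℕ) := by
    rintro N ⟨h0, hNX, j, hj, hjT⟩
    rw [Finset.mem_coe, Finset.mem_biUnion]
    obtain ⟨h1, h2⟩ := dvd_of_mem hj
    refine ⟨j, ?_, ?_⟩
    · rw [hA, Finset.mem_filter, Set.Finite.mem_toFinset]
      exact ⟨inv_sub h0 hNX hj, hjT⟩
    · rw [Finset.mem_filter, Finset.mem_Icc]
      exact ⟨⟨Nat.one_le_iff_ne_zero.2 h0, Nat.le_floor hNX⟩, h2⟩
  have h1 := Set.ncard_le_ncard hsub (Finset.finite_toSet _)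
  rw [Set.ncard_coe_finset] at h1
  calc (({N : ℕ | N ≠ 0 ∧ (N : ℝ) ≤ X ∧ ∃ j ∈ Invariants N, T < oddRadical j}.ncard : ℕ) : ℝ) ≤
      ∑ j ∈ A, ((((Finset.Icc 1 ⌊X⌋₊).filter fun N => R j ∣ N).card : ℕ) : ℝ) := by
        exact_mod_cast h1.trans Finset.card_biUnion_le
    _ ≤ ∑ j ∈ A, X * (oddRad j)⁻¹ := Finset.sum_le_sum fun j _ => by
        rw [← hRc]
        exact mult_nat _ X hX0
    _ = X * ∑ j ∈ A, (oddRad j)⁻¹ := by rw [Finset.mul_sum]
    _ ≤ X * (C * T ^ (-(1 / 3) + δ)) := mul_le_mul_of_nonneg_left (h T hT A hmemA) hX0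
    _ = C * T ^ (-(1 / 3) + δ) * X := by ring

open Classical in
/-- the number of invariants on average -/
theorem average_nat : ∃ C : ℝ, ∀ X : ℝ, 1 ≤ X →
    ∑ N ∈ Finset.Icc 1 ⌊X⌋₊, ((Invariants N).ncard : ℝ) ≤ C * X := by
  obtain ⟨C, hC, h⟩ := odd_tail (1 / 6) (by norm_num)
  set F := (odd_fin 1 le_rfl).toFinset with hF
  refine ⟨F.card + C, fun X hX => ?_⟩
  have hX0 : 0 ≤ X := by linarith
  have hfin := odd_fin (max 1 X) (le_max_left _ _)
  set R : ℚ → ℕ := fun j => ∏ q ∈ j.den.primeFactors.erase 2, q with hR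
  have hRpos : ∀ j, 0 < R j := fun j => Finset.prod_pos fun q hq =>
    (Nat.prime_of_mem_primeFactors (Finset.mem_of_mem_erase hq)).pos
  have hRc : ∀ j, (R j : ℝ) = oddRad j := fun j => by
    rw [hR]
    unfold oddRad
    push_cast
    rfl
  have h1 : ∀ N ∈ Finset.Icc 1 ⌊X⌋₊, ((Invariants N).ncard : ℝ) ≤
      ∑ j ∈ hfin.toFinset, if R j ∣ N then (1 : ℝ) else 0 := by
    intro N hN
    rw [Finset.mem_Icc] at hN
    have hN0 : N ≠ 0 := by omega
    have hNX : (N : ℝ) ≤ X := (Nat.cast_le.2 hN.2).trans (Nat.floor_le hX0)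
    have h2 : Invariants N ⊆ ((hfin.toFinset.filter fun j => R j ∣ N : Finset ℚ) : Set ℚ) := by
      intro j hj
      rw [Finset.mem_coe, Finset.mem_filter, Set.Finite.mem_toFinset]
      exact ⟨inv_sub hN0 hNX hj, (dvd_of_mem hj).2⟩
    have h3 := Set.ncard_le_ncard h2 (Finset.finite_toSet _)
    rw [Set.ncard_coe_finset, Finset.card_filter] at h3
    exact_mod_cast h3
  refine (Finset.sum_le_sum h1).trans ?_
  rw [Finset.sum_comm]
  have h2 : ∀ j, ∑ N ∈ Finset.Icc 1 ⌊X⌋₊, (if R j ∣ N then (1 : ℝ) else 0) ≤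
      X * (oddRad j)⁻¹ := by
    intro j
    rw [← hRc]
    refine le_trans (le_of_eq ?_) (mult_nat (R j) X hX0)
    rw [Finset.card_filter]
    push_cast
    rfl
  refine (Finset.sum_le_sum fun j _ => h2 j).trans ?_
  rw [← Finset.mul_sum, mul_comm _ X]
  refine mul_le_mul_of_nonneg_left ?_ hX0
  rw [← Finset.sum_filter_add_sum_filter_not hfin.toFinset (fun j => oddRad j ≤ 1)]
  refine add_le_add ?_ ?_
  · have h3 : ∀ j ∈ hfin.toFinset.filter (fun j => oddRad j ≤ 1), (oddRad j)⁻¹ ≤ 1 := by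
      intro j _
      refine inv_le_one_of_one_le₀ ?_
      rw [← hRc]
      exact_mod_cast hRpos j
    refine (Finset.sum_le_sum h3).trans ?_
    rw [Finset.sum_const, nsmul_eq_mul, mul_one]
    refine Nat.cast_le.2 (Finset.card_le_card fun j hj => ?_)
    rw [Finset.mem_filter, Set.Finite.mem_toFinset] at hj
    rw [hF, Set.Finite.mem_toFinset]
    exact ⟨hj.1.1, hj.2⟩
  · have h3 := h 1 le_rfl (hfin.toFinset.filter fun j => ¬ oddRad j ≤ 1) (fun j hj => by
      rw [Finset.mem_filter, Set.Finite.mem_toFinset] at hj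
      exact ⟨hj.1.1, not_le.1 hj.2⟩)
    rwa [Real.one_rpow, mul_one] at h3

theorem height_pair {K : Type} [Field K] [NumberField K] (x : K) :
    Height.logHeight₁ x = Height.logHeight ![x, 1] := by
  rw [Height.logHeight₁_eq_log_mulHeight₁, Height.logHeight_eq_log_mulHeight,
    Height.mulHeight₁_eq_mulHeight]

/-- the height of the modular invariant over an extension -/
theorem height_ext (M : Type) [Field M] [NumberField M] (j : ℚ) :
    Height.logHeight₁ (algebraMap ℚ M j) = Module.finrank ℚ M * Height.logHeight₁ j := by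
  rw [height_pair, height_pair, ← Pool.Agent.Helper259.HtExt.logHeight_ext (L := M)]
  congr 1
  funext i
  fin_cases i
  · rfl
  · exact (map_one _).symm

end Aux

/-- **Shafarevich's finiteness with bounded heights for most values of `N`.** -/
theorem result :
    (∀ ε : ℝ, 0 < ε → ∃ (J : Finset ℚ) (C : ℝ), ∀ X : ℝ, 1 ≤ X →
      (({N : ℕ | N ≠ 0 ∧ (N : ℝ) ≤ X ∧ ¬ ∀ (M : Type) [Field M] [NumberField M] (g : ℕ)
        (E : Fin g → WeierstrassCurve M) (j : Fin g → ℚ)
        (τ : Fin g → InfinitePlace M → UpperHalfPlane),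
        (∀ i, IsFactor N (E i) (j i) ∧ IsPeriod (algebraMap ℚ M (j i)) (τ i)) →
        (∀ i, j i ∈ J) ∧ ∑ i, faltings (algebraMap ℚ M (j i)) (τ i) ≤ C * g}.ncard : ℕ) : ℝ) ≤
          ε * X) ∧
    (∀ δ : ℝ, 0 < δ → ∃ C : ℝ, ∀ T X : ℝ, 1 ≤ T → 1 ≤ X →
      (({N : ℕ | N ≠ 0 ∧ (N : ℝ) ≤ X ∧ ∃ j ∈ Invariants N, T < oddRadical j}.ncard : ℕ) : ℝ) ≤
        C * T ^ (-(1 / 3) + δ) * X) ∧
    (∀ N : ℕ, N ≠ 0 → (Invariants N).Finite) ∧
    ∃ C : ℝ, ∀ X : ℝ, 1 ≤ X →
      ∑ N ∈ Finset.Icc 1 ⌊X⌋₊, ((Invariants N).ncard : ℝ) ≤ C * X := by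
  classical
  refine ⟨fun ε hε => ?_, fun δ hδ => ?_, fun N hN => ?_, average_nat⟩
  · obtain ⟨C, hC, h⟩ := rare_nat (1 / 6) (by norm_num)
    obtain ⟨T, hT1, hT⟩ : ∃ T : ℝ, 1 ≤ T ∧ C * T ^ (-(1 / 3 : ℝ) + 1 / 6) ≤ ε := by
      have h1 : Filter.Tendsto (fun T : ℝ => C * T ^ (-(1 / 3 : ℝ) + 1 / 6)) Filter.atTop
          (nhds (C * 0)) := by
        refine Filter.Tendsto.const_mul C ?_
        have : (-(1 / 3 : ℝ) + 1 / 6) = -(1 / 6) := by norm_num
        rw [this]
        exact tendsto_rpow_neg_atTop (by norm_num)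
      rw [mul_zero] at h1
      obtain ⟨N, hN⟩ := Filter.eventually_atTop.1 (h1.eventually_lt_const hε)
      exact ⟨max N 1, le_max_right _ _, (hN _ (le_max_left _ _)).le⟩
    obtain ⟨c, hc0, hc⟩ := Pool.Agent.Y729.FW.fal_two
    set J := (Pool.Agent.K3h24.SB.odd_fin T hT1).toFinset with hJ
    set H : ℝ := ∑ j ∈ J, Height.logHeight₁ j with hH
    have hnn : ∀ j : ℚ, 0 ≤ Height.logHeight₁ j := fun j => Height.zero_le_logHeight₁ j
    refine ⟨J, (H + c) / 12, fun X hX => ?_⟩
    refine le_trans ?_ ((h T X hT1 hX).trans (mul_le_mul_of_nonneg_right hT (by linarith)))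
    have hfin : {N : ℕ | N ≠ 0 ∧ (N : ℝ) ≤ X ∧ ∃ j ∈ Invariants N, T < oddRadical j}.Finite :=
      (Finset.finite_toSet _).subset (set_eq _ X)
    refine Nat.cast_le.2 (Set.ncard_le_ncard ?_ hfin)
    rintro N ⟨hN0, hNX, hneg⟩
    refine ⟨hN0, hNX, ?_⟩
    by_contra hc'
    apply hneg
    intro M _ _ g E j τ hE
    have hj : ∀ i, j i ∈ J := by
      intro i
      rw [hJ, Set.Finite.mem_toFinset]
      refine ⟨(hE i).1.level, ?_⟩
      by_contra h2
      exact hc' ⟨j i, ⟨M, _, _, E i, (hE i).1⟩, not_le.1 h2⟩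
    refine ⟨hj, ?_⟩
    have hone : ∀ i, faltings (algebraMap ℚ M (j i)) (τ i) ≤ (H + c) / 12 := by
      intro i
      have h1 : 12 * (Module.finrank ℚ M : ℝ) * faltings (algebraMap ℚ M (j i)) (τ i) ≤
          Height.logHeight₁ (algebraMap ℚ M (j i)) + c * Module.finrank ℚ M :=
        hc M (algebraMap ℚ M (j i)) (τ i) (hE i).2
      rw [height_ext] at h1
      have h2 : Height.logHeight₁ (j i) ≤ H :=
        Finset.single_le_sum (f := fun j : ℚ => Height.logHeight₁ j) (fun j _ => hnn j) (hj i)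
      have hM : (0 : ℝ) < Module.finrank ℚ M := by exact_mod_cast Module.finrank_pos
      rw [le_div_iff₀ (by norm_num)]
      have h3 : (Module.finrank ℚ M : ℝ) * (faltings (algebraMap ℚ M (j i)) (τ i) * 12) ≤
          Module.finrank ℚ M * (H + c) := by
        have h4 := mul_le_mul_of_nonneg_left h2 hM.le
        linarith
      exact le_of_mul_le_mul_left h3 hM
    calc ∑ i, faltings (algebraMap ℚ M (j i)) (τ i) ≤ ∑ _i : Fin g, (H + c) / 12 :=
          Finset.sum_le_sum fun i _ => hone i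
      _ = (H + c) / 12 * g := by
          rw [Finset.sum_const, Finset.card_univ, Fintype.card_fin, nsmul_eq_mul]
          ring
  · obtain ⟨C, -, h⟩ := rare_nat δ hδ
    exact ⟨C, h⟩
  · exact (Pool.Agent.K3h24.SB.odd_fin _ (le_max_left _ _)).subset (inv_sub hN le_rfl)

end Pool.Agent.Results.MP_07b2d0_nt.MostValuesOfN
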