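import Mathlib
import Pool.Agent.K3h37.RS.JInv
import Pool.Agent.Helper259.HtExt
import Pool.Agent.K3h37.RS.Low.Leg
import Pool.Agent.K3h97.RS.LOW
import Pool.Agent.K3h15.RS.SUM
import Pool.Agent.K3h76.RS.LIM
import Pool.Agent.K3h67.RS.ZO

/-!
# Abelian schemes with bad reduction in a random infinite set of primes

We consider the abelian schemes `A` over `ℤ[1 / N]`, of any dimension `g`, which become isomorphic to a
product `E_1 × ⋯ × E_g` of elliptic curves over some number field `M`, where the modular invariants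
`j_i` of the `E_i` are rational and of level two, that is, they are the invariants of elliptic
curves over `ℚ` with full rational two-torsion. The curves `E_i` over `M` have good reduction at all
primes of `M` which do not divide `N`, and `h_F(A)` is the sum of the stable Faltings heights of the
`E_i`. This is all that is used of `A`.

Let `P(ω)` be a random set of primes, in general infinite, which contains each finite set `T` of primes
with probability at most `A * ∏ p ∈ T, p ^ (-θ)`; for example, the primes are chosen independently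
with the probabilities `p ^ (-θ)`.

1. For every `κ > 1 / 3` there is `θ₀ < 2 / 3` such that for `θ > θ₀` almost surely, for all finite
   sets `S`, there is `C` such that `h_F(A) ≤ g ((κ / 2) log rad(N) + C)` for ALL these abelian
   schemes, for ALL `N` composed of primes of `P(ω) ∪ S` and ALL `g`.
2. For `θ > 2 / 3` almost surely, for all finite sets `S`, there are a finite set `J` of rational numbers
   and `C` such that all `j_i` are in `J` and `h_F(A) ≤ C g`, for all these abelian schemes, all `N`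
   composed of primes of `P(ω) ∪ S` and all `g`.
3. The threshold `2 / 3` is sharp: for independent primes and `0 ≤ θ < 2 / 3` almost surely, for some
   finite `S`, there is no such `C`, not even for `g = 1` and `M = ℚ`.

Lemmas on the second moment are due to helpers 15, 67, 76 and 97.
-/

set_option autoImplicit false

namespace Pool.Agent.Results.MP_07b2d0_nt.RandomInfiniteSets

open NumberField IsDedekindDomain MeasureTheory

/-- the modular invariant `j(τ) = E₄(τ) ^ 3 / Δ(τ) = 1 / q + 744 + ⋯` -/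
noncomputable def jInv (τ : UpperHalfPlane) : ℂ :=
  ModularForm.E₄ τ ^ 3 / ModularForm.discriminant τ

/-- the archimedean term `- log (|Δ(τ)| (Im τ) ^ 6)` of the Faltings height -/
noncomputable def arch (τ : UpperHalfPlane) : ℝ :=
  -Real.log (‖ModularForm.discriminant τ‖ * τ.im ^ 6)

/-- the points `τ w` have modular invariant `j` -/
def IsPeriod {M : Type} [Field M] [NumberField M] (j : M)
    (τ : InfinitePlace M → UpperHalfPlane) : Prop := ∀ w, jInv (τ w) = w.embedding j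

/-- Silverman's formula for the stable Faltings height (up to an additive constant which depends on
the normalisation of the metric only) of an elliptic curve with modular invariant `j ∈ M`, where
`τ w` is a point of the upper half plane with modular invariant `j` at the infinite place `w`:
`12 [M : ℚ] h_F = ∑_v log max(|j|_v, 1) + ∑_w [M_w : ℝ] arch (τ w)`. -/
noncomputable def faltings {M : Type} [Field M] [NumberField M] (j : M)
    (τ : InfinitePlace M → UpperHalfPlane) : ℝ :=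
  (∑ᶠ v : HeightOneSpectrum (𝓞 M), Real.log (max (FinitePlace.mk v j) 1) +
    ∑ w : InfinitePlace M, (w.mult : ℝ) * arch (τ w)) / (12 * Module.finrank ℚ M)

/-- good reduction at `v`: some Weierstrass equation over `M` of the curve is integral at `v` and
has a discriminant which is a unit at `v` -/
def GoodAt {M : Type} [Field M] [NumberField M] (v : HeightOneSpectrum (𝓞 M))
    (E : WeierstrassCurve M) : Prop :=
  ∃ C : WeierstrassCurve.VariableChange M,
    v.valuation M (C • E).a₁ ≤ 1 ∧ v.valuation M (C • E).a₂ ≤ 1 ∧ v.valuation M (C • E).a₃ ≤ 1 ∧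
    v.valuation M (C • E).a₄ ≤ 1 ∧ v.valuation M (C • E).a₆ ≤ 1 ∧ v.valuation M (C • E).Δ = 1

/-- `j` is the modular invariant of a Legendre curve `y² = x (x - 1) (x - l)` over `ℚ`, that is, of an
elliptic curve over `ℚ` with full rational two-torsion -/
def LevelTwo (j : ℚ) : Prop :=
  ∃ l : ℚ, l ≠ 0 ∧ l ≠ 1 ∧ j * (l ^ 2 * (1 - l) ^ 2) = 256 * (l ^ 2 - l + 1) ^ 3

/-- `E` is an elliptic curve over the number field `M` with good reduction at all primes which do not
divide `N`, and its modular invariant is the rational number `j`, of level two. The factors over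
`M` of the abelian schemes `A` over `ℤ[1 / N]` have this property. -/
structure IsFactor (N : ℕ) {M : Type} [Field M] [NumberField M] (E : WeierstrassCurve M)
    (j : ℚ) : Prop where
  disc : E.Δ ≠ 0
  inv : E.c₄ ^ 3 / E.Δ = algebraMap ℚ M j
  level : LevelTwo j
  good : ∀ v : HeightOneSpectrum (𝓞 M), (N : 𝓞 M) ∉ v.asIdeal → GoodAt v E

/-- the random set `P` of primes contains each finite set `T` of primes with probability at most
`A * ∏ p ∈ T, p ^ (-θ)` -/
def Thin {Ω : Type*} [MeasurableSpace Ω] (μ : Measure Ω) (P : Ω → Set ℕ) (A θ : ℝ) : Prop :=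
  ∀ T : Finset ℕ, (∀ p ∈ T, p.Prime) → μ {ω | ∀ p ∈ T, p ∈ P ω} ≤
    ENNReal.ofReal (A * ∏ p ∈ T, (p : ℝ) ^ (-θ))

/-- the primes of the random set `P` are independent, and `p` belongs to `P` with the probability
`p ^ (-θ)` -/
def Independent {Ω : Type*} [MeasurableSpace Ω] (μ : Measure Ω) (P : Ω → Set ℕ) (θ : ℝ) : Prop :=
  ∀ T : Finset ℕ, (∀ p ∈ T, p.Prime) → MeasurableSet {ω | ∀ p ∈ T, p ∈ P ω} ∧
    μ {ω | ∀ p ∈ T, p ∈ P ω} = ENNReal.ofReal (∏ p ∈ T, (p : ℝ) ^ (-θ))

/-- all prime factors of `N ≠ 0` are in `Q` -/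
def ComposedOf (N : ℕ) (Q : Set ℕ) : Prop := N ≠ 0 ∧ ∀ p : ℕ, p.Prime → p ∣ N → p ∈ Q

/-- the product of the prime factors of `N` -/
noncomputable def rad (N : ℕ) : ℝ := ∏ p ∈ N.primeFactors, (p : ℝ)

section Aux

open Pool.Agent.K3h24.SB Pool.Agent.TH876.Loc Finset Pool.Agent.K3h37

theorem par_mem {N : ℕ} {M : Type} [Field M] [NumberField M] {E : WeierstrassCurve M} {j l : ℚ}
    (h : IsFactor N E j) (hl : l ≠ 0) (hl1 : l ≠ 1)
    (hj : j * (l ^ 2 * (1 - l) ^ 2) = 256 * (l ^ 2 - l + 1) ^ 3) :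
    l ∈ Sol s2 (Ideal.span {(N : 𝓞 ℚ)}) := by
  refine par_over (M := M) _ E hl hl1 hj h.inv fun v hv => h.good v fun hN => hv ?_
  rw [Ideal.span_singleton_le_iff_mem, Ideal.mem_comap, map_natCast]
  exact hN

theorem height_pair {K : Type} [Field K] [NumberField K] (x : K) :
    Height.logHeight₁ x = Height.logHeight ![x, 1] := by
  rw [Height.logHeight₁_eq_log_mulHeight₁, Height.logHeight_eq_log_mulHeight,
    Height.mulHeight₁_eq_mulHeight]

/-- the height of the modular invariant over an extension -/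
theorem height_ext (M : Type) [Field M] [NumberField M] (j : ℚ) :
    Height.logHeight₁ (algebraMap ℚ M j) = Module.finrank ℚ M * Height.logHeight₁ j := by
  rw [height_pair, height_pair, ← Pool.Agent.Helper259.HtExt.logHeight_ext (L := M)]
  congr 1
  funext i
  fin_cases i
  · rfl
  · exact (map_one _).symm

/-- the Faltings height and the height of the modular invariant -/
theorem fal_le : ∃ c : ℝ, 0 ≤ c ∧ ∀ (M : Type) [Field M] [NumberField M] (j : ℚ)
    (τ : InfinitePlace M → UpperHalfPlane), IsPeriod (algebraMap ℚ M j) τ →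
      faltings (algebraMap ℚ M j) τ ≤ (Height.logHeight₁ j + c) / 12 := by
  obtain ⟨c, hc0, hc⟩ := Pool.Agent.Y729.FW.fal_two
  refine ⟨c, hc0, fun M _ _ j τ hτ => ?_⟩
  have h1 : 12 * (Module.finrank ℚ M : ℝ) * faltings (algebraMap ℚ M j) τ ≤
      Height.logHeight₁ (algebraMap ℚ M j) + c * Module.finrank ℚ M :=
    hc M (algebraMap ℚ M j) τ hτ
  rw [height_ext] at h1
  have hM : (0 : ℝ) < Module.finrank ℚ M := by exact_mod_cast Module.finrank_pos
  rw [le_div_iff₀ (by norm_num)]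
  have h3 : (Module.finrank ℚ M : ℝ) * (faltings (algebraMap ℚ M j) τ * 12) ≤
      Module.finrank ℚ M * (Height.logHeight₁ j + c) := by linarith
  exact le_of_mul_le_mul_left h3 hM

theorem thin_iff {Ω : Type*} [MeasurableSpace Ω] {μ : Measure Ω} {P : Ω → Set ℕ} {A θ : ℝ}
    (h : Thin μ P A θ) : RS.Thin μ (fun ω => {v : Pr ℚ | qq v ∈ P ω}) A θ :=
  RS.thin_of_nat h

open Classical in
/-- the primes of `ℚ` with characteristic in `S` -/
theorem exists_fin (S : Finset ℕ) : ∃ S' : Finset (Pr ℚ), ∀ (Q : Set ℕ),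
    {v : Pr ℚ | qq v ∈ Q ∪ S} ∪ (T2 ℚ : Set (Pr ℚ)) ⊆ {v : Pr ℚ | qq v ∈ Q} ∪ (S' : Set (Pr ℚ)) := by
  have hf : {v : Pr ℚ | qq v ∈ S}.Finite := by
    refine Set.Finite.of_finite_image (f := qq) (S.finite_toSet.subset ?_) fun v _ w _ h => qq_inj h
    rintro _ ⟨v, hv, rfl⟩
    exact hv
  refine ⟨hf.toFinset ∪ T2 ℚ, fun Q v hv => ?_⟩
  rw [Finset.coe_union, Set.Finite.coe_toFinset]
  rcases hv with (h | h) | h
  · exact Or.inl h
  · exact Or.inr (Or.inl h)
  · exact Or.inr (Or.inr h)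

open Pool.Agent.K3h37.RS.Low in
/-- every pair gives a factor over `ℚ`, of large height -/
theorem factor_of_pair : ∃ c : ℝ, ∀ (Z : Set ℕ) (x : ℕ × ℕ), x ∈ Pairs Z →
    ComposedOf (2 * R x) (Z ∪ {2}) ∧
    ∃ (E : WeierstrassCurve ℚ) (j : ℚ) (τ : InfinitePlace ℚ → UpperHalfPlane),
      IsFactor (2 * R x) E j ∧ IsPeriod (algebraMap ℚ ℚ j) τ ∧
        Real.log (R x : ℝ) - c ≤ 24 * faltings (algebraMap ℚ ℚ j) τ := by
  obtain ⟨c, hc0, hc⟩ := Pool.Agent.Y729.FW.fal_one one_pos
  refine ⟨Real.log 256 + c, fun Z x hx => ?_⟩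
  have hR0 : R x ≠ 0 := by
    unfold R
    have h1 := hx.1
    have h2 := hx.2.1
    positivity
  have hxP : x ∈ Pairs (nat {v : Pr ℚ | qq v ∣ R x}) := by
    refine ⟨hx.1, hx.2.1, hx.2.2.1, fun p hp hd => ?_⟩
    obtain ⟨v, rfl⟩ := exists_qq hp
    exact ⟨v, hd, rfl⟩
  obtain ⟨hl0, hl1, hu⟩ := quo_unit hxP
  obtain ⟨hΔ, hj⟩ := leg_j hl0 hl1
  refine ⟨⟨by positivity, fun p hp hd => ?_⟩, ?_⟩
  · rcases (Nat.Prime.dvd_mul hp).1 hd with h | h
    · right
      exact (Nat.prime_dvd_prime_iff_eq hp Nat.prime_two).1 h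
    · exact Or.inl (hx.2.2.2 p hp h)
  · choose τ hτ using fun w : InfinitePlace ℚ => Pool.Agent.Y729.FW.j_surj
      (w.embedding (algebraMap ℚ ℚ ((leg (quo x)).c₄ ^ 3 / (leg (quo x)).Δ)))
    have hper : IsPeriod (algebraMap ℚ ℚ ((leg (quo x)).c₄ ^ 3 / (leg (quo x)).Δ)) τ := hτ
    refine ⟨leg (quo x), (leg (quo x)).c₄ ^ 3 / (leg (quo x)).Δ, τ,
      ⟨hΔ, rfl, ⟨quo x, hl0, hl1, hj⟩, fun v hv => ?_⟩, hper, ?_⟩
    · have h2 : ¬ qq v ∣ 2 * R x := by
        intro h
        exact hv ((mem_p v (2 * R x)).2 h)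
      have h3 : ¬ qq v ∣ 2 := fun h => h2 (h.mul_right _)
      have h4 : v ∉ {v : Pr ℚ | qq v ∣ R x} := fun h => h2 ((show qq v ∣ R x from h).mul_left _)
      obtain ⟨h5, h6⟩ := hu v h4
      refine ⟨1, ?_⟩
      rw [one_smul]
      exact leg_good v h3 h5 h6
    · have h1 := height_large hx hj
      have h2 := hc ℚ (algebraMap ℚ ℚ ((leg (quo x)).c₄ ^ 3 / (leg (quo x)).Δ)) τ hper
      have h3 : ((Module.finrank ℚ ℚ : ℕ) : ℝ) = 1 := by simp
      rw [h3] at h2
      have h4 : Pool.Agent.TH876.FH.faltings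
          (algebraMap ℚ ℚ ((leg (quo x)).c₄ ^ 3 / (leg (quo x)).Δ)) τ =
          faltings (algebraMap ℚ ℚ ((leg (quo x)).c₄ ^ 3 / (leg (quo x)).Δ)) τ := rfl
      rw [h4] at h2
      have h5 : Height.logHeight₁ (algebraMap ℚ ℚ ((leg (quo x)).c₄ ^ 3 / (leg (quo x)).Δ)) =
          Height.logHeight₁ ((leg (quo x)).c₄ ^ 3 / (leg (quo x)).Δ) := rfl
      rw [h5] at h2
      linarith

open Pool.Agent.K3h37.RS.Low in
/-- below the threshold there is no bound -/
theorem sharp (θ : ℝ) (h0 : 0 ≤ θ) (h1 : θ < 2 / 3) (Ω : Type) [MeasurableSpace Ω] (μ : Measure Ω)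
    (P : Ω → Set ℕ) (hμ : IsProbabilityMeasure μ) (hP : Independent μ P θ) :
    ∀ᵐ ω ∂μ, ∃ S : Finset ℕ, ∀ C : ℝ, ∃ N : ℕ, ComposedOf N (P ω ∪ S) ∧
      ∃ (E : WeierstrassCurve ℚ) (j : ℚ) (τ : InfinitePlace ℚ → UpperHalfPlane),
        IsFactor N E j ∧ IsPeriod (algebraMap ℚ ℚ j) τ ∧ C < faltings (algebraMap ℚ ℚ j) τ := by
  classical
  have h2 : IndNat μ P θ := hP
  have h3 := infinite_pos Pool.Agent.K3h97.RS.t_LOW
    (Pool.Agent.K3h15.RS.t_SUM t_NUM) Pool.Agent.K3h76.RS.t_PZ Pool.Agent.K3h76.RS.t_LIM h2 h0 h1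
  obtain ⟨c, hc⟩ := factor_of_pair
  filter_upwards [Pool.Agent.K3h67.RS.t_ZO h2 h3] with ω hω
  obtain ⟨S, hS⟩ := hω
  refine ⟨insert 2 S, fun C => ?_⟩
  obtain ⟨B, hB⟩ := exists_nat_gt (Real.exp (24 * C + c))
  obtain ⟨x, hx, hxB⟩ := exists_large hS B
  obtain ⟨h4, E, j, τ, h5, h6, h7⟩ := hc _ x hx
  refine ⟨2 * R x, ⟨h4.1, fun p hp hd => ?_⟩, E, j, τ, h5, h6, ?_⟩
  · rcases h4.2 p hp hd with (h | h) | h
    · exact Or.inl h
    · exact Or.inr (Finset.mem_coe.2 (Finset.mem_insert_of_mem (Finset.mem_coe.1 h)))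
    · have h' : p = 2 := h
      rw [h']
      exact Or.inr (Finset.mem_coe.2 (Finset.mem_insert_self _ _))
  · have h8 : Real.exp (24 * C + c) < R x := by
      have : (B : ℝ) < R x := by exact_mod_cast hxB
      linarith
    have h9 : 24 * C + c < Real.log (R x) :=
      (Real.lt_log_iff_exp_lt (lt_trans (Real.exp_pos _) h8)).2 h8
    linarith

end Aux

open Pool.Agent.K3h37 Pool.Agent.TH876.Loc Pool.Agent.K3h24.SB in
/-- **The height bound for abelian schemes with bad reduction in a random infinite set of primes.**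
(1) For `κ > 1 / 3` there is `θ₀ < 2 / 3` such that for `θ > θ₀` almost surely for all finite `S`:
`∑ h_F(E_i) ≤ g ((κ / 2) log rad(N) + C)` for all `N` composed of primes of `P(ω) ∪ S`, all `M`, all `g`
and all `g`-tuples of factors over `M`. (2) For `θ > 2 / 3` almost surely for all finite `S` all `j_i` are
in a finite set and `∑ h_F(E_i) ≤ C g`. (3) Independent primes with the probabilities `p ^ (-θ)` exist.
(4) For independent primes and `0 ≤ θ < 2 / 3` almost surely, for some finite `S`, the heights of the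
factors over `M = ℚ` for the `N` composed of primes of `P(ω) ∪ S` are not bounded. -/
theorem result :
    (∀ κ : ℝ, 1 / 3 < κ → ∃ θ₀ : ℝ, 0 ≤ θ₀ ∧ θ₀ < 2 / 3 ∧ ∀ θ : ℝ, θ₀ < θ →
      ∀ (Ω : Type) [MeasurableSpace Ω] (μ : Measure Ω) (P : Ω → Set ℕ) (A : ℝ), Thin μ P A θ →
        ∀ᵐ ω ∂μ, ∀ S : Finset ℕ, ∃ C : ℝ, ∀ N : ℕ, ComposedOf N (P ω ∪ S) →
          ∀ (M : Type) [Field M] [NumberField M] (g : ℕ) (E : Fin g → WeierstrassCurve M)
            (j : Fin g → ℚ) (τ : Fin g → InfinitePlace M → UpperHalfPlane),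
            (∀ i, IsFactor N (E i) (j i) ∧ IsPeriod (algebraMap ℚ M (j i)) (τ i)) →
            ∑ i, faltings (algebraMap ℚ M (j i)) (τ i) ≤ g * (κ / 2 * Real.log (rad N) + C)) ∧
    (∀ θ : ℝ, 2 / 3 < θ →
      ∀ (Ω : Type) [MeasurableSpace Ω] (μ : Measure Ω) (P : Ω → Set ℕ) (A : ℝ), Thin μ P A θ →
        ∀ᵐ ω ∂μ, ∀ S : Finset ℕ, ∃ (J : Finset ℚ) (C : ℝ), ∀ N : ℕ, ComposedOf N (P ω ∪ S) →
          ∀ (M : Type) [Field M] [NumberField M] (g : ℕ) (E : Fin g → WeierstrassCurve M)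
            (j : Fin g → ℚ) (τ : Fin g → InfinitePlace M → UpperHalfPlane),
            (∀ i, IsFactor N (E i) (j i) ∧ IsPeriod (algebraMap ℚ M (j i)) (τ i)) →
            (∀ i, j i ∈ J) ∧ ∑ i, faltings (algebraMap ℚ M (j i)) (τ i) ≤ C * g) ∧
    (∀ θ : ℝ, 0 ≤ θ → ∃ (Ω : Type) (_ : MeasurableSpace Ω) (μ : Measure Ω) (P : Ω → Set ℕ),
      IsProbabilityMeasure μ ∧ Independent μ P θ) ∧
    ∀ θ : ℝ, 0 ≤ θ → θ < 2 / 3 → ∀ (Ω : Type) [MeasurableSpace Ω] (μ : Measure Ω)
      (P : Ω → Set ℕ), IsProbabilityMeasure μ → Independent μ P θ →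
        ∀ᵐ ω ∂μ, ∃ S : Finset ℕ, ∀ C : ℝ, ∃ N : ℕ, ComposedOf N (P ω ∪ S) ∧
          ∃ (E : WeierstrassCurve ℚ) (j : ℚ) (τ : InfinitePlace ℚ → UpperHalfPlane),
            IsFactor N E j ∧ IsPeriod (algebraMap ℚ ℚ j) τ ∧
              C < faltings (algebraMap ℚ ℚ j) τ := by
  classical
  obtain ⟨c, hc0, hc⟩ := fal_le
  refine ⟨?_, ?_, ?_, sharp⟩
  · intro κ hκ
    obtain ⟨θ₀, h0, h1, h2⟩ := RS.ae_height ℚ hκ
    refine ⟨θ₀, h0, h1, fun θ hθ Ω _ μ P A hP => ?_⟩
    filter_upwards [h2 θ hθ Ω μ _ A (thin_iff hP)] with ω hω S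
    obtain ⟨S', hS'⟩ := exists_fin S
    obtain ⟨C, hC, h3⟩ := hω S'
    refine ⟨(6 * (κ * Real.log (nn (T2 ℚ)) + C) + Real.log 6912 + c) / 12, ?_⟩
    intro N hN M _ _ g E j τ hE
    have hone : ∀ i, faltings (algebraMap ℚ M (j i)) (τ i) ≤
        κ / 2 * Real.log (rad N) +
          (6 * (κ * Real.log (nn (T2 ℚ)) + C) + Real.log 6912 + c) / 12 := by
      intro i
      obtain ⟨l, hl, hl1, hj⟩ := (hE i).1.level
      have e1 := par_mem (hE i).1 hl hl1 hj
      have e2 := RS.par_un hl hl1 e1 hN.2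
      have e3 := h3 l ⟨e2.1, e2.2.trans (hS' _)⟩
      have e4 := RS.par_rad hN.1 e1
      have e5 := RS.height_j hl hl1 hj
      have e6 := hc M (j i) (τ i) (hE i).2
      have e7 := mul_le_mul_of_nonneg_left e4 (show 0 ≤ κ by linarith)
      have e8 : Real.log (∏ p ∈ N.primeFactors, (p : ℝ)) = Real.log (rad N) := rfl
      rw [e8] at e7
      linarith
    refine (Finset.sum_le_sum fun i _ => hone i).trans (le_of_eq ?_)
    rw [Finset.sum_const, Finset.card_univ, Fintype.card_fin, nsmul_eq_mul]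
  · intro θ hθ Ω _ μ P A hP
    filter_upwards [RS.ae_finite ℚ hθ Ω μ _ A (thin_iff hP)] with ω hω S
    obtain ⟨S', hS'⟩ := exists_fin S
    have hf := hω S'
    -- the modular invariants of the finitely many parameters
    set f : ℚ → ℚ := fun l => 256 * (l ^ 2 - l + 1) ^ 3 / (l ^ 2 * (1 - l) ^ 2) with hfdef
    set J : Finset ℚ := hf.toFinset.image f with hJ
    set H : ℝ := ∑ j ∈ J, Height.logHeight₁ j with hH
    have hnn : ∀ j : ℚ, 0 ≤ Height.logHeight₁ j := fun j => Height.zero_le_logHeight₁ j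
    refine ⟨J, (H + c) / 12, ?_⟩
    intro N hN M _ _ g E j τ hE
    have hj : ∀ i, j i ∈ J := by
      intro i
      obtain ⟨l, hl, hl1, hj⟩ := (hE i).1.level
      have e1 := par_mem (hE i).1 hl hl1 hj
      have e2 := RS.par_un hl hl1 e1 hN.2
      refine Finset.mem_image.2 ⟨l, ?_, ?_⟩
      · rw [Set.Finite.mem_toFinset]
        exact ⟨e2.1, e2.2.trans (hS' _)⟩
      · have e3 : l ^ 2 * (1 - l) ^ 2 ≠ 0 :=
          mul_ne_zero (pow_ne_zero _ hl) (pow_ne_zero _ (sub_ne_zero.2 (Ne.symm hl1)))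
        rw [hfdef]
        show 256 * (l ^ 2 - l + 1) ^ 3 / (l ^ 2 * (1 - l) ^ 2) = j i
        rw [div_eq_iff e3, hj]
    refine ⟨hj, ?_⟩
    have hone : ∀ i, faltings (algebraMap ℚ M (j i)) (τ i) ≤ (H + c) / 12 := by
      intro i
      have h2 : Height.logHeight₁ (j i) ≤ H :=
        Finset.single_le_sum (f := fun j : ℚ => Height.logHeight₁ j) (fun j _ => hnn j) (hj i)
      have h4 := hc M (j i) (τ i) (hE i).2
      linarith
    calc ∑ i, faltings (algebraMap ℚ M (j i)) (τ i) ≤ ∑ _i : Fin g, (H + c) / 12 :=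
          Finset.sum_le_sum fun i _ => hone i
      _ = (H + c) / 12 * g := by
          rw [Finset.sum_const, Finset.card_univ, Fintype.card_fin, nsmul_eq_mul]
          ring
  · intro θ hθ
    obtain ⟨Ω, i1, μ, P, h1, h2⟩ := RS.exists_bern (fun p : ℕ => if p.Prime then (p : ℝ) ^ (-θ) else 0)
      (fun p => by
        show 0 ≤ if p.Prime then (p : ℝ) ^ (-θ) else 0
        split_ifs
        · positivity
        · exact le_rfl)
      (fun p => by
        show (if p.Prime then (p : ℝ) ^ (-θ) else 0) ≤ 1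
        split_ifs with hp
        · exact Real.rpow_le_one_of_one_le_of_nonpos (by exact_mod_cast hp.one_lt.le) (by linarith)
        · exact zero_le_one)
    refine ⟨Ω, i1, μ, P, h1, fun T hT => ?_⟩
    have h3 := h2 T
    rw [Finset.prod_congr rfl fun p hp => if_pos (hT p hp)] at h3
    exact h3

end Pool.Agent.Results.MP_07b2d0_nt.RandomInfiniteSets
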